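import Pool.Agent.Q203.Jump
import Pool.Agent.H139R3.FM

set_option autoImplicit false

namespace Pool.Agent.Results.MP_9b97c3_lc.NoSingleJump

/-- The `G`-jump `E^[G]` of a relation `E` on `X`: the relation on `G → X` relating `α` and `β`
iff some `g` in `G` satisfies `E (α (g⁻¹ * h)) (β h)` for all `h` in `G`. -/
def GroupJump (G : Type) [Group G] {X : Type} (E : X → X → Prop) (α β : G → X) : Prop :=
  ∃ g : G, ∀ h : G, E (α (g⁻¹ * h)) (β h)

/-- Borel reducibility of `E` to `F`: a Borel map `f` with `E x x' ↔ F (f x) (f x')`. -/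
def BorelRed {X Y : Type} [MeasurableSpace X] [MeasurableSpace Y]
    (E : X → X → Prop) (F : Y → Y → Prop) : Prop :=
  ∃ f : X → Y, Measurable f ∧ ∀ x x', E x x' ↔ F (f x) (f x')

theorem groupJump_eq_equivalence (K : Type) [Group K] (Z : Type) :
    Equivalence (GroupJump K (fun a b : Z => a = b)) := by
  refine ⟨fun α => ⟨1, fun h => by simp⟩, ?_, ?_⟩
  · rintro α β ⟨g, hg⟩
    refine ⟨g⁻¹, fun h => ?_⟩
    have := hg (g * h)
    simp only [inv_mul_cancel_left] at this
    simp [this]
  · rintro α β γ ⟨g, hg⟩ ⟨k, hk⟩
    refine ⟨k * g, fun h => ?_⟩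
    rw [← hk h, ← hg (k⁻¹ * h)]
    simp [mul_assoc]

/-- the iterated jump is never essentially countable -/
theorem not_ess_countable (G H : Type) [Group G] [Group H] [Countable G] [Countable H]
    [Infinite G] [Infinite H] (X : Type) [TopologicalSpace X] [PolishSpace X] [MeasurableSpace X]
    [BorelSpace X] (E : X → X → Prop) (hE : Equivalence E) (h2 : ∃ x y, ¬ E x y)
    (Y : Type) [MeasurableSpace Y] [StandardBorelSpace Y] (R : Y → Y → Prop)
    (hR : Equivalence R) (hRm : MeasurableSet {p : Y × Y | R p.1 p.2})
    (hRc : ∀ y, {y' | R y y'}.Countable) :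
    ¬ BorelRed (GroupJump H (GroupJump G E)) R := by
  rintro ⟨g, hg, hgred⟩
  obtain ⟨x0, x1, h01⟩ := h2
  let := upgradeStandardBorel Y
  obtain ⟨s, hs1, hs2, hs3⟩ := Pool.Agent.H139R3.FM.feldman_moore R hR hRm hRc
  let c : Bool → X := fun b => if b then x1 else x0
  have hc : ∀ a b, E (c a) (c b) ↔ a = b := by
    intro a b
    cases a <;> cases b
    · simp [c, hE.refl x0]
    · simp [c, h01]
    · simp only [c]
      simp only [if_true, Bool.false_eq_true, if_false, reduceCtorEq, iff_false]
      exact fun h => h01 (hE.symm h)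
    · simp [c, hE.refl x1]
  have hcc : ∀ w w' : H → G → Bool, GroupJump H (GroupJump G E) (fun h a => c (w h a))
      (fun h a => c (w' h a)) ↔
      Pool.Agent.Q203.Jump.GJump H (Pool.Agent.Q203.Jump.GJump G (fun a b : Bool => a = b)) w w' := by
    intro w w'
    simp only [GroupJump, Pool.Agent.Q203.Jump.GJump, hc]
  have hcm : Measurable fun (w : H → G → Bool) (h : H) (a : G) => c (w h a) := by
    refine measurable_pi_lambda _ fun h => measurable_pi_lambda _ fun a => ?_
    exact (measurable_of_countable c).comp ((measurable_pi_apply a).comp (measurable_pi_apply h))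
  refine Pool.Agent.Q203.Jump.core (fun w : H → G → Bool => g (fun h a => c (w h a)))
    (hg.comp hcm) s hs1 ?_ ?_
  · intro x y hxy
    rw [← hcc] at hxy
    exact (hs3 _ _).1 ((hgred _ _).1 hxy)
  · intro x y hxy
    rw [← hcc, hgred]
    rw [hxy]
    exact hR.refl _

/-- **Iterated group jumps are not single group jumps.**  Let `G`, `H` be infinite countable
groups and `E` an equivalence relation with at least two classes on a Polish space.  Then the
iterated jump `(E^[G])^[H]` is not Borel reducible to any countable Borel equivalence relation;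
and if `E` is smooth then `(E^[G])^[H]` is not Borel reducible to `E^[K]` for any countable group
`K`.  In particular the negated form of the question holds. -/
theorem result :
    (∀ (G H : Type) [Group G] [Group H] [Countable G] [Countable H] [Infinite G] [Infinite H]
      (X : Type) [TopologicalSpace X] [PolishSpace X] [MeasurableSpace X] [BorelSpace X]
      (E : X → X → Prop), Equivalence E → (∃ x y, ¬ E x y) →
      (∀ (Y : Type) [MeasurableSpace Y] [StandardBorelSpace Y] (R : Y → Y → Prop),
        Equivalence R → MeasurableSet {p : Y × Y | R p.1 p.2} →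
        (∀ y, {y' | R y y'}.Countable) → ¬ BorelRed (GroupJump H (GroupJump G E)) R) ∧
      ((∃ r : X → ℝ, Measurable r ∧ ∀ x y, E x y ↔ r x = r y) →
        ∀ (K : Type) [Group K] [Countable K],
          ¬ BorelRed (GroupJump H (GroupJump G E)) (GroupJump K E))) ∧
    (∃ (G H : Type) (_ : Group G) (_ : Group H) (_ : Countable G) (_ : Countable H)
      (X : Type) (_ : TopologicalSpace X) (_ : PolishSpace X) (_ : MeasurableSpace X)
      (_ : BorelSpace X) (E : X → X → Prop), Equivalence E ∧
      ∀ (K : Type) [Group K] [Countable K],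
        ¬ (BorelRed (GroupJump H (GroupJump G E)) (GroupJump K E) ∧
          BorelRed (GroupJump K E) (GroupJump H (GroupJump G E)))) := by
  have main : ∀ (G H : Type) [Group G] [Group H] [Countable G] [Countable H] [Infinite G]
      [Infinite H] (X : Type) [TopologicalSpace X] [PolishSpace X] [MeasurableSpace X]
      [BorelSpace X] (E : X → X → Prop), Equivalence E → (∃ x y, ¬ E x y) →
      (∀ (Y : Type) [MeasurableSpace Y] [StandardBorelSpace Y] (R : Y → Y → Prop),
        Equivalence R → MeasurableSet {p : Y × Y | R p.1 p.2} →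
        (∀ y, {y' | R y y'}.Countable) → ¬ BorelRed (GroupJump H (GroupJump G E)) R) ∧
      ((∃ r : X → ℝ, Measurable r ∧ ∀ x y, E x y ↔ r x = r y) →
        ∀ (K : Type) [Group K] [Countable K],
          ¬ BorelRed (GroupJump H (GroupJump G E)) (GroupJump K E)) := by
    intro G H _ _ _ _ _ _ X _ _ _ _ E hE h2
    refine ⟨fun Y _ _ R hR hRm hRc => not_ess_countable G H X E hE h2 Y R hR hRm hRc, ?_⟩
    rintro ⟨r, hr, hEr⟩ K _ _ ⟨f, hf, hfred⟩
    refine not_ess_countable G H X E hE h2 (K → ℝ) (GroupJump K (fun a b : ℝ => a = b))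
      (groupJump_eq_equivalence K ℝ) ?_ ?_ ⟨fun x k => r (f x k), ?_, ?_⟩
    · have : {p : (K → ℝ) × (K → ℝ) | GroupJump K (fun a b : ℝ => a = b) p.1 p.2} =
          ⋃ g : K, ⋂ h : K, {p | p.1 (g⁻¹ * h) = p.2 h} := by
        ext p
        simp [GroupJump]
      rw [this]
      refine MeasurableSet.iUnion fun g => MeasurableSet.iInter fun h => ?_
      exact measurableSet_eq_fun ((measurable_pi_apply _).comp measurable_fst)
        ((measurable_pi_apply _).comp measurable_snd)
    · intro y
      have : {y' | GroupJump K (fun a b : ℝ => a = b) y y'} ⊆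
          Set.range fun g : K => fun h : K => y (g⁻¹ * h) := by
        rintro y' ⟨g, hg⟩
        exact ⟨g, funext hg⟩
      exact (Set.countable_range _).mono this
    · exact measurable_pi_lambda _ fun k => hr.comp ((measurable_pi_apply k).comp hf)
    · intro x x'
      rw [hfred]
      simp only [GroupJump, hEr]
  refine ⟨main, ?_⟩
  refine ⟨Multiplicative ℤ, Multiplicative ℤ, inferInstance, inferInstance, inferInstance,
    inferInstance, ℝ, inferInstance, inferInstance, inferInstance, inferInstance,
    fun a b => a = b, eq_equivalence, ?_⟩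
  rintro K _ _ ⟨h1, _⟩
  exact (main (Multiplicative ℤ) (Multiplicative ℤ) ℝ (fun a b => a = b) eq_equivalence
    ⟨0, 1, by norm_num⟩).2 ⟨id, measurable_id, fun x y => Iff.rfl⟩ K h1

end Pool.Agent.Results.MP_9b97c3_lc.NoSingleJump
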